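import Mathlib

namespace Pool.Agent.Results.MP_919dc2_an.Yes

open Set Filter Topology Function

/-- the special alpha-limit set -/
def sAlpha (f : unitInterval → unitInterval) (x : unitInterval) : Set unitInterval :=
  {y | ∃ b : ℕ → unitInterval, b 0 = x ∧ (∀ k, f (b (k + 1)) = b k) ∧
    ∃ s : ℕ → ℕ, StrictMono s ∧ Tendsto (fun j => b (s j)) atTop (𝓝 y)}

/-- S contains a periodic orbit of least period n -/
def HasOrbit (f : unitInterval → unitInterval) (S : Set unitInterval) (n : ℕ) : Prop :=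
  ∃ p, f^[n] p = p ∧ (∀ m, 1 ≤ m → m < n → f^[m] p ≠ p) ∧ ∀ i < n, f^[i] p ∈ S

variable {f : unitInterval → unitInterval}

theorem cover (hf : Continuous f) {u v : unitInterval} (h : u ≤ v) : ∃ u' v', u ≤ u' ∧ u' ≤ v' ∧
    v' ≤ v ∧ f u' = f u ∧ f v' = f v ∧ ∀ y ∈ Icc u' v', f y ∈ uIcc (f u) (f v) := by
  obtain ⟨u', ⟨h1, h2⟩, h3⟩ := (isCompact_Icc.inter_right (isClosed_eq hf
    (continuous_const (y := f u)))).exists_isGreatest ⟨u, left_mem_Icc.2 h, rfl⟩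
  obtain ⟨v', ⟨h4, h5⟩, h6⟩ := (isCompact_Icc.inter_right (isClosed_eq hf
    (continuous_const (y := f v)))).exists_isLeast ⟨v, right_mem_Icc.2 h1.2, rfl⟩
  replace h2 : f u' = f u := h2
  replace h5 : f v' = f v := h5
  refine ⟨u', v', h1.1, h4.1, h4.2, h2, h5, fun y hy => by_contra fun h7 => ?_⟩
  have h8 : f u ∈ uIcc (f y) (f v') ∨ f v ∈ uIcc (f u') (f y) := by
    simp only [mem_uIcc, h2, h5] at h7 ⊢
    grind
  rcases h8 with h8 | h8
  · obtain ⟨z, h9, h10⟩ := intermediate_value_uIcc hf.continuousOn h8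
    rw [uIcc_of_le hy.2] at h9
    have := h3 ⟨⟨h1.1.trans (hy.1.trans h9.1), h9.2.trans h4.2⟩, h10⟩
    rw [← hy.1.antisymm (h9.1.trans this), h2] at h7
    exact h7 left_mem_uIcc
  · obtain ⟨z, h9, h10⟩ := intermediate_value_uIcc hf.continuousOn h8
    rw [uIcc_of_le hy.1] at h9
    have := h6 ⟨⟨h9.1, h9.2.trans (hy.2.trans h4.2)⟩, h10⟩
    rw [hy.2.antisymm (this.trans h9.2), h5] at h7
    exact h7 right_mem_uIcc

theorem cover2 (hf : Continuous f) {p q s t : unitInterval} (hs : s ∈ uIcc (f p) (f q))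
    (ht : t ∈ uIcc (f p) (f q)) : ∃ u v, f u = s ∧ f v = t ∧
      ∀ y ∈ uIcc u v, y ∈ uIcc p q ∧ f y ∈ uIcc s t := by
  obtain ⟨u, h1, rfl⟩ := intermediate_value_uIcc hf.continuousOn hs
  obtain ⟨v, h2, rfl⟩ := intermediate_value_uIcc hf.continuousOn ht
  rcases le_total u v with h | h
  · obtain ⟨u', v', h3, h4, h5, h6, h7, h8⟩ := cover hf h
    refine ⟨u', v', h6, h7, fun y hy => ?_⟩
    rw [uIcc_of_le h4] at hy
    exact ⟨uIcc_subset_uIcc h1 h2 (mem_uIcc_of_le (h3.trans hy.1) (hy.2.trans h5)), h8 y hy⟩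
  · obtain ⟨v', u', h3, h4, h5, h6, h7, h8⟩ := cover hf h
    refine ⟨u', v', h7, h6, fun y hy => ?_⟩
    rw [uIcc_of_ge h4] at hy
    exact ⟨uIcc_subset_uIcc h1 h2 (mem_uIcc_of_ge (h3.trans hy.1) (hy.2.trans h5)),
      uIcc_comm (f u) _ ▸ h8 y hy⟩

theorem conv (hf : Continuous f) {u v x : unitInterval} (h1 : f u ≤ u) (h2 : v ≤ f v)
    (hx : x ∈ Icc u v) : ∃ y : ℕ → unitInterval, y 0 = x ∧ (∀ k, f (y (k + 1)) = y k) ∧
      ∃ p ∈ Icc u v, f p = p ∧ Tendsto y atTop (𝓝 p) := by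
  suffices h : ∃ y : ℕ → unitInterval, y 0 = x ∧ (∀ k, f (y (k + 1)) = y k) ∧ (∀ k, y k ∈ Icc u v) ∧
      (Monotone y ∨ Antitone y) by
    obtain ⟨y, h3, h4, h5, h6⟩ := h
    obtain ⟨p, hp⟩ : ∃ p, Tendsto y atTop (𝓝 p) :=
      h6.elim (fun h => ⟨_, tendsto_atTop_iSup h⟩) fun h => ⟨_, tendsto_atTop_iInf h⟩
    refine ⟨y, h3, h4, p, isClosed_Icc.mem_of_tendsto hp (.of_forall h5), ?_, hp⟩
    exact tendsto_nhds_unique ((hf.tendsto p).comp (hp.comp (tendsto_add_atTop_nat 1)))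
      (hp.congr fun k => (h4 k).symm)
  rcases le_total x (f x) with h | h
  · have : ∀ y : {y // y ∈ Icc u v ∧ y ≤ f y}, ∃ z : {y // y ∈ Icc u v ∧ y ≤ f y},
        f z = y ∧ z ≤ y := fun ⟨y, h3, h4⟩ => by
      obtain ⟨z, h5, h6⟩ := intermediate_value_Icc h3.1 hf.continuousOn ⟨h1.trans h3.1, h4⟩
      exact ⟨⟨z, ⟨h5.1, h5.2.trans h3.2⟩, h6 ▸ h5.2⟩, h6, h5.2⟩
    choose g g1 g2 using this
    exact ⟨fun k => g^[k] ⟨x, hx, h⟩, rfl, fun k => by simp only [iterate_succ_apply', g1],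
      fun k => (g^[k] _).2.1, .inr (antitone_nat_of_succ_le fun k => by
        rw [iterate_succ_apply']; exact g2 _)⟩
  · have : ∀ y : {y // y ∈ Icc u v ∧ f y ≤ y}, ∃ z : {y // y ∈ Icc u v ∧ f y ≤ y},
        f z = y ∧ y ≤ z := fun ⟨y, h3, h4⟩ => by
      obtain ⟨z, h5, h6⟩ := intermediate_value_Icc h3.2 hf.continuousOn ⟨h4, h3.2.trans h2⟩
      exact ⟨⟨z, ⟨h3.1.trans h5.1, h5.2⟩, h6 ▸ h5.1⟩, h6, h5.1⟩
    choose g g1 g2 using this
    exact ⟨fun k => g^[k] ⟨x, hx, h⟩, rfl, fun k => by simp only [iterate_succ_apply', g1],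
      fun k => (g^[k] _).2.1, .inl (monotone_nat_of_le_succ fun k => by
        rw [iterate_succ_apply']; exact g2 _)⟩

theorem back {b : ℕ → unitInterval} (h : ∀ k, f (b (k + 1)) = b k) (k i : ℕ) :
    f^[i] (b (k + i)) = b k := by
  induction i with
  | zero => rfl
  | succ i ih => rw [iterate_succ_apply, ← add_assoc, h, ih]

theorem mem (hf : Continuous f) {m : ℕ} (hm : 1 ≤ m) {y : ℕ → unitInterval}
    (h : ∀ k, f^[m] (y (k + 1)) = y k) {p : unitInterval} (hp : Tendsto y atTop (𝓝 p)) (N i : ℕ) :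
    f^[i] p ∈ sAlpha f (f^[N] (y 0)) := by
  obtain ⟨m, rfl⟩ := Nat.exists_eq_add_of_le' hm
  have h1 : ∀ k, f (f^[N + m * (k + 1)] (y (k + 1))) = f^[N + m * k] (y k) := fun k => by
    rw [← h k, ← iterate_add_apply, ← iterate_succ_apply' f]
    congr 1
    rw [Nat.succ_eq_add_one]
    ring
  refine ⟨fun k => f^[N + m * k] (y k), rfl, h1, fun j => N + m * (j + i) + j,
    strictMono_nat_of_lt_succ fun j => by nlinarith, ?_⟩
  refine (((hf.iterate i).tendsto p).comp (hp.comp (tendsto_add_atTop_nat i))).congr fun j => ?_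
  have h2 := back (f := f^[m + 1]) h (j + i) (N + m * (j + i))
  have h3 := back (b := fun k => f^[N + m * k] (y k)) h1 (N + m * (j + i) + j) i
  simp only [comp]
  rw [← h3, ← h2, ← iterate_mul]
  congr 2 <;> ring_nf

theorem result (f : unitInterval → unitInterval) (hf : Continuous f) (x : unitInterval)
    (h : HasOrbit f (sAlpha f x) 3) (n : ℕ) (hn : 1 ≤ n) :
    HasOrbit f (sAlpha f x) n ∨ HasOrbit f (sAlpha f x) (2 * n) := by
  by_cases n3 : n = 3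
  · exact .inl (n3 ▸ h)
  obtain ⟨b, b1, b2, b3⟩ : ∃ b ∈ sAlpha f x, f (f (f b)) = b ∧ b ∈ uIoo (f b) (f (f b)) := by
    obtain ⟨p, h1, h2, h3⟩ := h
    have h4 := h2 1 le_rfl (by omega)
    have h5 := h2 2 (by omega) (by omega)
    replace h1 : f (f (f p)) = p := h1
    replace h4 : f p ≠ p := h4
    replace h5 : f (f p) ≠ p := h5
    have h6 : f (f p) ≠ f p := fun h => h5 (by rwa [h] at h1)
    have : p ∈ uIoo (f p) (f (f p)) ∨ f p ∈ uIoo (f (f p)) p ∨ f (f p) ∈ uIoo p (f p) := by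
      simp only [uIoo, mem_Ioo, inf_lt_iff, lt_sup_iff]
      grind
    rcases this with h | h | h
    · exact ⟨p, h3 0 (by omega), h1, h⟩
    · exact ⟨f p, h3 1 (by omega), by rw [h1], by rwa [h1]⟩
    · exact ⟨f (f p), h3 2 (by omega), by rw [h1], by rwa [h1]⟩
  have b4 : uIcc b (f b) ⊆ uIcc (f b) (f (f b)) :=
    uIcc_subset_uIcc (Ioo_subset_Icc_self b3) left_mem_uIcc
  have b5 : uIcc (f (f b)) b ⊆ uIcc (f b) (f (f b)) :=
    uIcc_subset_uIcc right_mem_uIcc (Ioo_subset_Icc_self b3)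
  have A : ∀ k, ∀ s ∈ uIcc (f b) (f (f b)), ∀ t ∈ uIcc (f b) (f (f b)), ∃ u v, f^[k + 1] u = s ∧
      f^[k + 1] v = t ∧ ∀ y ∈ uIcc u v, (∀ i ≤ k, f^[i] y ∈ uIcc b (f b)) ∧
        f^[k + 1] y ∈ uIcc s t := fun k s hs t ht => by
    induction k with
    | zero =>
      obtain ⟨u, v, h1, h2, h3⟩ := cover2 hf hs ht
      exact ⟨u, v, h1, h2, fun y hy => ⟨fun i hi => Nat.le_zero.1 hi ▸ (h3 y hy).1, (h3 y hy).2⟩⟩
    | succ k ih =>
      obtain ⟨u, v, h1, h2, h3⟩ := ih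
      obtain ⟨u', v', h4, h5, h6⟩ := cover2 hf (b4 ((h3 u left_mem_uIcc).1 0 k.zero_le))
        (b4 ((h3 v right_mem_uIcc).1 0 k.zero_le))
      refine ⟨u', v', h1 ▸ congrArg _ h4, h2 ▸ congrArg _ h5, fun y hy =>
        ⟨fun i hi => ?_, (h3 _ (h6 y hy).2).2⟩⟩
      cases i with
      | zero => exact (h6 y hy).1
      | succ i => exact (h3 _ (h6 y hy).2).1 i (by omega)
  have l1 : b ⊓ f b ∈ uIcc b (f b) := left_mem_Icc.2 inf_le_sup
  have l2 : b ⊔ f b ∈ uIcc b (f b) := right_mem_Icc.2 inf_le_sup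
  obtain ⟨u, v, h1, h2, h3⟩ : ∃ u v, f^[n] u = b ⊓ f b ∧ f^[n] v = b ⊔ f b ∧ ∀ y ∈ uIcc u v,
      y ∈ uIcc b (f b) ∧ (∀ i, i + 1 < n → f^[i] y ∈ uIcc b (f b)) ∧
        (1 < n → f^[n - 1] y ∈ uIcc (f (f b)) b) := by
    rcases hn.eq_or_lt with rfl | hn
    · obtain ⟨u, v, h1, h2, h3⟩ := A 0 _ (b4 l1) _ (b4 l2)
      exact ⟨u, v, h1, h2, fun y hy => ⟨(h3 y hy).1 0 le_rfl, by omega, by omega⟩⟩
    · obtain ⟨k, rfl⟩ : ∃ k, n = k + 1 + 1 := ⟨n - 2, by omega⟩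
      obtain ⟨u, v, h1, h2, h3⟩ := cover2 hf (p := f (f b)) (q := b) (by rw [b2]; exact l1)
        (by rw [b2]; exact l2)
      obtain ⟨u', v', h4, h5, h6⟩ := A k _ (b5 (h3 u left_mem_uIcc).1) _ (b5 (h3 v right_mem_uIcc).1)
      exact ⟨u', v', by rw [iterate_succ_apply', h4, h1], by rw [iterate_succ_apply', h5, h2],
        fun y hy => ⟨(h6 y hy).1 0 k.zero_le, fun i hi => (h6 y hy).1 i (by omega),
          fun _ => (h3 _ (h6 y hy).2).1⟩⟩
  have hg := hf.iterate n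
  have u1 := (h3 u left_mem_uIcc).1
  have v1 := (h3 v right_mem_uIcc).1
  obtain ⟨u0, v0, h4, h5, h6, h7, h8⟩ : ∃ u0 v0, u0 ≤ v0 ∧ u0 ∈ uIcc u v ∧ v0 ∈ uIcc u v ∧
      f^[n] u0 = u ∧ f^[n] v0 = v := by
    rcases le_total u v with h | h
    · obtain ⟨u0, h4, h5⟩ := intermediate_value_Icc h hg.continuousOn
        (show u ∈ _ by rw [h1, h2]; exact u1)
      obtain ⟨v0, h6, h7⟩ := intermediate_value_Icc h4.2 hg.continuousOn
        (show v ∈ _ from ⟨h5 ▸ h, h2 ▸ v1.2⟩)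
      exact ⟨u0, v0, h6.1, mem_uIcc_of_le h4.1 h4.2, mem_uIcc_of_le (h4.1.trans h6.1) h6.2, h5, h7⟩
    · obtain ⟨u0, h4, h5⟩ := intermediate_value_Icc' h hg.continuousOn
        (show u ∈ _ by rw [h1, h2]; exact u1)
      obtain ⟨v0, h6, h7⟩ := intermediate_value_Icc' h4.2 hg.continuousOn
        (show v ∈ _ from ⟨h1 ▸ v1.1, h5 ▸ h⟩)
      exact ⟨u0, v0, h6.1, mem_uIcc_of_ge h4.1 h4.2, mem_uIcc_of_ge (h4.1.trans h6.1) h6.2, h5, h7⟩
  obtain ⟨u', v', c1, c2, c3, c4, c5, c6⟩ := cover hg h4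
  rw [h7] at c4 c6
  rw [h8] at c5 c6
  have c7 : Icc u' v' ⊆ uIcc u v := fun y hy =>
    uIcc_subset_uIcc h5 h6 (mem_uIcc_of_le (c1.trans hy.1) (hy.2.trans c3))
  have d1 : f^[n + n] u' = b ⊓ f b := by rw [iterate_add_apply, c4, h1]
  have d2 : f^[n + n] v' = b ⊔ f b := by rw [iterate_add_apply, c5, h2]
  obtain ⟨z, z1, z2, s, -, z3⟩ := b1
  obtain ⟨N, hN⟩ := (z3.eventually (isOpen_Ioo.mem_nhds b3)).exists
  obtain ⟨w, w1, w2⟩ := intermediate_value_uIcc hf.continuousOn (Ioo_subset_Icc_self hN)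
  obtain ⟨y0, y1, y2⟩ := intermediate_value_Icc c2 (hf.iterate (n + n)).continuousOn
    (show w ∈ _ by rw [d1, d2]; exact w1)
  obtain ⟨y, rfl, y3, p, p1, p2, p3⟩ := conv (hf.iterate (n + n))
    (d1 ▸ (h3 _ (c7 (left_mem_Icc.2 c2))).1.1) (d2 ▸ (h3 _ (c7 (right_mem_Icc.2 c2))).1.2) y1
  have hx : x = f^[s N + 1 + (n + n)] (y 0) := by
    rw [iterate_add_apply, y2, iterate_succ_apply, w2, ← z1, ← back z2 0 (s N), zero_add]
  have p4 : ∀ i, f^[i] p ∈ sAlpha f x := fun i => hx ▸ mem hf (by omega) y3 p3 _ i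
  have p5 : IsPeriodicPt f (n + n) p := p2
  have p6 : ∀ i, ¬n ∣ i + 1 → f^[i] p ∈ uIcc b (f b) := fun i hi => by
    rw [← p5.iterate_mod_apply]
    have h9 := Nat.mod_lt i (show 0 < n + n by omega)
    have h10 : ¬n ∣ i % (n + n) + 1 := fun h => hi (by
      rw [← Nat.mod_add_div i (n + n), add_right_comm]
      exact h.add ((dvd_add dvd_rfl dvd_rfl).mul_right _))
    generalize i % (n + n) = j at h9 h10
    rcases lt_or_ge j n with h | h
    · exact (h3 _ (c7 p1)).2.1 j (lt_of_le_of_ne h fun h => h10 (h ▸ dvd_rfl))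
    · obtain ⟨j, rfl⟩ := Nat.exists_eq_add_of_le' h
      rw [iterate_add_apply]
      exact (h3 _ (c6 _ p1)).2.1 j (lt_of_le_of_ne (by omega) fun h => h10 ⟨2, by omega⟩)
  have p7 := p5.minimalPeriod_pos (by omega)
  have p8 : n ∣ minimalPeriod f p := by_contra fun h => by
    have h9 : 1 < n := hn.lt_of_ne fun h' => h (h' ▸ one_dvd _)
    have h10 := p6 (n - 1 + minimalPeriod f p) fun h' => h (by
      rwa [add_right_comm, Nat.sub_add_cancel hn, Nat.dvd_add_right dvd_rfl] at h')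
    rw [iterate_add_apply, iterate_minimalPeriod] at h10
    have h11 := (h3 _ (c7 p1)).2.2 h9
    have h12 : f^[n - 1] p = b := by
      simp only [uIoo, mem_Ioo, inf_lt_iff, lt_sup_iff, mem_uIcc] at b3 h10 h11
      grind
    have h13 : f (f b) ∉ uIcc b (f b) := by
      simp only [uIoo, mem_Ioo, inf_lt_iff, lt_sup_iff, mem_uIcc] at b3 ⊢
      grind
    have h14 : f^[2 + (n - 1)] p = f (f b) := by rw [iterate_add_apply, h12]; rfl
    have h15 : f^[5 + (n - 1)] p = f (f b) := by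
      rw [iterate_add_apply, h12]
      exact congrArg (fun t => f (f t)) b2
    have h16 : n ∣ 2 + (n - 1) + 1 := by_contra fun h => h13 (h14 ▸ p6 _ h)
    have h17 : n ∣ 5 + (n - 1) + 1 := by_contra fun h => h13 (h15 ▸ p6 _ h)
    have h18 := (Nat.dvd_sub h17 h16).trans (show _ ∣ 3 from ⟨1, by omega⟩)
    rcases (Nat.dvd_prime Nat.prime_three).1 h18 with h | h <;> omega
  have p9 : HasOrbit f (sAlpha f x) (minimalPeriod f p) := ⟨p, iterate_minimalPeriod,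
    fun m h9 h10 h11 => (IsPeriodicPt.minimalPeriod_le h9 h11).not_gt h10, fun i _ => p4 i⟩
  obtain ⟨c, hc⟩ := p8
  have h9 : c ∣ 2 := by
    rw [← Nat.mul_dvd_mul_iff_left hn, ← hc, mul_two]
    exact p5.minimalPeriod_dvd
  rcases (Nat.dvd_prime Nat.prime_two).1 h9 with rfl | rfl
  · exact .inl (by rwa [hc, mul_one] at p9)
  · exact .inr (by rwa [hc, mul_comm] at p9)

end Pool.Agent.Results.MP_919dc2_an.Yes
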